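import Pool.Agent.L5helper66.TD.Defs

set_option autoImplicit false

open scoped TensorProduct RealInnerProductSpace

namespace Pool.Agent.L5helper41.TD

open Pool.Agent.L5helper66.TD

theorem inner_dist (P Q R : E3) :
    ⟪Q - P, R - P⟫ = (dist P Q ^ 2 + dist P R ^ 2 - dist Q R ^ 2) / 2 := by
  rw [real_inner_eq_norm_mul_self_add_norm_mul_self_sub_norm_sub_mul_self_div_two,
    dist_eq_norm P Q, dist_eq_norm P R, dist_eq_norm Q R, sub_sub_sub_cancel_right,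
    norm_sub_rev P Q, norm_sub_rev P R]
  ring

theorem inner_orth (u v w : E3) (hu : ⟪u, u⟫ ≠ 0) :
    ⟪orth u v, orth u w⟫ = ⟪v, w⟫ - ⟪u, v⟫ * ⟪u, w⟫ / ⟪u, u⟫ := by
  unfold orth
  rw [inner_sub_left, inner_sub_right, inner_sub_right, real_inner_smul_left,
    real_inner_smul_left, real_inner_smul_right, real_inner_smul_right, real_inner_comm u v]
  field_simp
  ring

theorem dihedral_eq (P Q R S : E3) :
    dihedral P Q R S = Real.arccos
      (⟪orth (Q - P) (R - P), orth (Q - P) (S - P)⟫ /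
        (√ ⟪orth (Q - P) (R - P), orth (Q - P) (R - P)⟫ *
          √ ⟪orth (Q - P) (S - P), orth (Q - P) (S - P)⟫)) := by
  unfold dihedral InnerProductGeometry.angle
  rw [norm_eq_sqrt_real_inner (orth (Q - P) (R - P)),
    norm_eq_sqrt_real_inner (orth (Q - P) (S - P))]

theorem dihedral_base (P Q R S : E3) (a b : ℝ) (ha : 0 < a) (hb : 0 < b)
    (hab : a ^ 2 < 3 * b ^ 2)
    (h1 : dist P Q = a) (h2 : dist P R = a) (h3 : dist Q R = a)
    (h4 : dist P S = b) (h5 : dist Q S = b) (h6 : dist R S = b) :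
    dihedral P Q R S = Real.arccos (a / √(3 * (4 * b ^ 2 - a ^ 2))) := by
  have e1 : ⟪Q - P, Q - P⟫ = a ^ 2 := by
    rw [inner_dist, h1, dist_self]; ring
  have e2 : ⟪R - P, R - P⟫ = a ^ 2 := by
    rw [inner_dist, h2, dist_self]; ring
  have e3 : ⟪S - P, S - P⟫ = b ^ 2 := by
    rw [inner_dist, h4, dist_self]; ring
  have e4 : ⟪Q - P, R - P⟫ = a ^ 2 / 2 := by
    rw [inner_dist, h1, h2, h3]; ring
  have e5 : ⟪Q - P, S - P⟫ = a ^ 2 / 2 := by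
    rw [inner_dist, h1, h4, h5]; ring
  have e6 : ⟪R - P, S - P⟫ = a ^ 2 / 2 := by
    rw [inner_dist, h2, h4, h6]; ring
  have hne : ⟪Q - P, Q - P⟫ ≠ (0 : ℝ) := by rw [e1]; positivity
  have hpos : 0 < 4 * b ^ 2 - a ^ 2 := by nlinarith [sq_nonneg b]
  rw [dihedral_eq, inner_orth _ _ _ hne, inner_orth _ _ _ hne, inner_orth _ _ _ hne,
    e1, e2, e3, e4, e5, e6]
  congr 1
  have k1 : a ^ 2 / 2 - a ^ 2 / 2 * (a ^ 2 / 2) / a ^ 2 = a ^ 2 / 4 := by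
    field_simp; ring
  have k2 : a ^ 2 - a ^ 2 / 2 * (a ^ 2 / 2) / a ^ 2 = (a / 2) ^ 2 * 3 := by
    field_simp; ring
  have k3 : b ^ 2 - a ^ 2 / 2 * (a ^ 2 / 2) / a ^ 2 = (1 / 2 : ℝ) ^ 2 * (4 * b ^ 2 - a ^ 2) := by
    field_simp; ring
  rw [k1, k2, k3, Real.sqrt_mul (by positivity), Real.sqrt_mul (by positivity),
    Real.sqrt_mul (by norm_num : (0:ℝ) ≤ 3), Real.sqrt_sq (by positivity),
    Real.sqrt_sq (by norm_num)]
  have s3 : (0 : ℝ) < √3 := Real.sqrt_pos.2 (by norm_num)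
  have s4 : 0 < √(4 * b ^ 2 - a ^ 2) := Real.sqrt_pos.2 hpos
  field_simp
  norm_num

theorem dihedral_lat (P Q R S : E3) (a b : ℝ) (ha : 0 < a) (hb : 0 < b)
    (hab : a ^ 2 < 3 * b ^ 2)
    (h1 : dist P Q = b) (h2 : dist P R = a) (h3 : dist Q R = b)
    (h4 : dist P S = a) (h5 : dist Q S = b) (h6 : dist R S = a) :
    dihedral P Q R S = Real.arccos ((2 * b ^ 2 - a ^ 2) / (4 * b ^ 2 - a ^ 2)) := by
  have e1 : ⟪Q - P, Q - P⟫ = b ^ 2 := by
    rw [inner_dist, h1, dist_self]; ring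
  have e2 : ⟪R - P, R - P⟫ = a ^ 2 := by
    rw [inner_dist, h2, dist_self]; ring
  have e3 : ⟪S - P, S - P⟫ = a ^ 2 := by
    rw [inner_dist, h4, dist_self]; ring
  have e4 : ⟪Q - P, R - P⟫ = a ^ 2 / 2 := by
    rw [inner_dist, h1, h2, h3]; ring
  have e5 : ⟪Q - P, S - P⟫ = a ^ 2 / 2 := by
    rw [inner_dist, h1, h4, h5]; ring
  have e6 : ⟪R - P, S - P⟫ = a ^ 2 / 2 := by
    rw [inner_dist, h2, h4, h6]; ring
  have hne : ⟪Q - P, Q - P⟫ ≠ (0 : ℝ) := by rw [e1]; positivity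
  have hpos : 0 < 4 * b ^ 2 - a ^ 2 := by nlinarith [sq_nonneg b]
  rw [dihedral_eq, inner_orth _ _ _ hne, inner_orth _ _ _ hne, inner_orth _ _ _ hne,
    e1, e2, e3, e4, e5, e6]
  congr 1
  have k1 : a ^ 2 / 2 - a ^ 2 / 2 * (a ^ 2 / 2) / b ^ 2 =
      a ^ 2 * (2 * b ^ 2 - a ^ 2) / (4 * b ^ 2) := by
    field_simp; ring
  have k2 : a ^ 2 - a ^ 2 / 2 * (a ^ 2 / 2) / b ^ 2 =
      a ^ 2 * (4 * b ^ 2 - a ^ 2) / (4 * b ^ 2) := by
    field_simp; ring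
  have k3 : 0 ≤ a ^ 2 * (4 * b ^ 2 - a ^ 2) / (4 * b ^ 2) := by positivity
  rw [k1, k2, Real.mul_self_sqrt k3]
  field_simp

theorem sqrt_lt_one {a b : ℝ} (ha : 0 < a) (hab : a ^ 2 < 3 * b ^ 2) :
    0 < a / √(3 * (4 * b ^ 2 - a ^ 2)) ∧ a / √(3 * (4 * b ^ 2 - a ^ 2)) < 1 := by
  have hpos : 0 < 3 * (4 * b ^ 2 - a ^ 2) := by nlinarith [sq_nonneg b]
  have hs : 0 < √(3 * (4 * b ^ 2 - a ^ 2)) := Real.sqrt_pos.2 hpos
  refine ⟨div_pos ha hs, ?_⟩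
  rw [div_lt_one hs]
  refine Real.lt_sqrt_of_sq_lt ?_
  nlinarith

theorem arccos_bds {x : ℝ} (h1 : -1 < x) (h2 : x < 1) :
    0 < Real.arccos x ∧ Real.arccos x < Real.pi ∧ Real.cos (Real.arccos x) = x := by
  refine ⟨Real.arccos_pos.2 h2, ?_, Real.cos_arccos h1.le h2.le⟩
  refine lt_of_le_of_ne (Real.arccos_le_pi x) fun h => ?_
  rw [Real.arccos_eq_pi] at h
  linarith

theorem inner_expand (u v w : E3) :
    ⟪w - (1 / 3 : ℝ) • (u + v), w - (1 / 3 : ℝ) • (u + v)⟫ =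
      ⟪w, w⟫ - 2 / 3 * (⟪u, w⟫ + ⟪v, w⟫) + (⟪u, u⟫ + 2 * ⟪u, v⟫ + ⟪v, v⟫) / 9 := by
  rw [inner_sub_left, inner_sub_right, inner_sub_right, real_inner_smul_left,
    real_inner_smul_left, real_inner_smul_right, real_inner_smul_right, inner_add_left,
    inner_add_right, inner_add_left, inner_add_right, inner_add_right,
    real_inner_comm u w, real_inner_comm v w, real_inner_comm u v]
  ring

theorem pyr_geo (T : Fin 4 → E3) (hT : AffineIndependent ℝ T) (a b : ℝ) (h : IsPyramid T a b) :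
    0 < a ∧ 0 < b ∧ a ^ 2 < 3 * b ^ 2 ∧ ∃ α β : ℝ, 0 < α ∧ α < Real.pi ∧ 0 < β ∧ β < Real.pi ∧
      Real.cos α = a / √(3 * (4 * b ^ 2 - a ^ 2)) ∧
      Real.cos β = (2 * b ^ 2 - a ^ 2) / (4 * b ^ 2 - a ^ 2) ∧
      dehn T = 3 • (a ⊗ₜ[ℤ] ang α) + 3 • (b ⊗ₜ[ℤ] ang β) := by
  obtain ⟨h01, h12, h02, h03, h13, h23⟩ := h
  have ha : 0 < a := by
    rw [← h01]
    exact dist_pos.2 fun e => absurd (hT.injective e) (by decide)
  have hb : 0 < b := by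
    rw [← h03]
    exact dist_pos.2 fun e => absurd (hT.injective e) (by decide)
  have hab : a ^ 2 < 3 * b ^ 2 := by
    have e1 : ⟪T 1 - T 0, T 1 - T 0⟫ = a ^ 2 := by
      rw [inner_dist, h01, dist_self]; ring
    have e2 : ⟪T 2 - T 0, T 2 - T 0⟫ = a ^ 2 := by
      rw [inner_dist, h02, dist_self]; ring
    have e3 : ⟪T 3 - T 0, T 3 - T 0⟫ = b ^ 2 := by
      rw [inner_dist, h03, dist_self]; ring
    have e4 : ⟪T 1 - T 0, T 2 - T 0⟫ = a ^ 2 / 2 := by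
      rw [inner_dist, h01, h02, h12]; ring
    have e5 : ⟪T 1 - T 0, T 3 - T 0⟫ = a ^ 2 / 2 := by
      rw [inner_dist, h01, h03, h13]; ring
    have e6 : ⟪T 2 - T 0, T 3 - T 0⟫ = a ^ 2 / 2 := by
      rw [inner_dist, h02, h03, h23]; ring
    have hne : (T 3 - T 0) - (1 / 3 : ℝ) • ((T 1 - T 0) + (T 2 - T 0)) ≠ 0 := by
      intro h0
      have := (affineIndependent_iff.1 hT) Finset.univ ![-1/3, -1/3, -1/3, 1]
        (by simp [Fin.sum_univ_four]; norm_num)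
        (by
          rw [← h0, Fin.sum_univ_four]
          change (-1/3 : ℝ) • T 0 + (-1/3 : ℝ) • T 1 + (-1/3 : ℝ) • T 2 + (1 : ℝ) • T 3 = _
          module) 3 (Finset.mem_univ _)
      change (1 : ℝ) = 0 at this
      exact one_ne_zero this
    have hp := real_inner_self_pos.2 hne
    rw [inner_expand, e1, e2, e3, e4, e5, e6] at hp
    linarith
  have hpos : 0 < 4 * b ^ 2 - a ^ 2 := by nlinarith [sq_nonneg b]
  obtain ⟨x1, x2⟩ := sqrt_lt_one ha hab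
  obtain ⟨y1, y2, y3⟩ := arccos_bds (by linarith) x2
  have z1 : -1 < (2 * b ^ 2 - a ^ 2) / (4 * b ^ 2 - a ^ 2) := by
    rw [lt_div_iff₀ hpos]; nlinarith
  have z2 : (2 * b ^ 2 - a ^ 2) / (4 * b ^ 2 - a ^ 2) < 1 := by
    rw [div_lt_one hpos]; nlinarith
  obtain ⟨w1, w2, w3⟩ := arccos_bds z1 z2
  refine ⟨ha, hb, hab, _, _, y1, y2, w1, w2, y3, w3, ?_⟩
  have h10 : dist (T 1) (T 0) = a := by rw [dist_comm, h01]
  have h21 : dist (T 2) (T 1) = a := by rw [dist_comm, h12]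
  have h20 : dist (T 2) (T 0) = a := by rw [dist_comm, h02]
  have h30 : dist (T 3) (T 0) = b := by rw [dist_comm, h03]
  have h31 : dist (T 3) (T 1) = b := by rw [dist_comm, h13]
  have h32 : dist (T 3) (T 2) = b := by rw [dist_comm, h23]
  unfold dehn term
  rw [h01, h02, h03, h12, h13, h23,
    dihedral_base (T 0) (T 1) (T 2) (T 3) a b ha hb hab h01 h02 h12 h03 h13 h23,
    dihedral_base (T 0) (T 2) (T 1) (T 3) a b ha hb hab h02 h01 h21 h03 h23 h13,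
    dihedral_lat (T 0) (T 3) (T 1) (T 2) a b ha hb hab h03 h01 h31 h02 h32 h12,
    dihedral_base (T 1) (T 2) (T 0) (T 3) a b ha hb hab h12 h10 h20 h13 h23 h03,
    dihedral_lat (T 1) (T 3) (T 0) (T 2) a b ha hb hab h13 h10 h30 h12 h32 h02,
    dihedral_lat (T 2) (T 3) (T 0) (T 1) a b ha hb hab h23 h20 h30 h21 h31 h01]
  abel

end Pool.Agent.L5helper41.TD
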